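import Pool.Agent.H28.BR.Stm5

set_option autoImplicit false

/-! Project BR4, module BD0 (helper99): the bound of the sum over the non-squares. -/

namespace Pool.Agent.H99.BR4

open Finset Filter Topology MeasureTheory Pool.Agent.H28.BR Pool.Agent.H28.BR3 Pool.Agent.H28.BR4

noncomputable section

/-- the distance of `b/s` from the integers -/
theorem nd_ge (s b : ℕ) (hb : 1 ≤ b) (hbs : b < s) :
    0 < nd (0 - (b : ℝ) / s) ∧ 1 / nd (0 - (b : ℝ) / s) ≤ (s : ℝ) / b + (s : ℝ) / ((s - b : ℕ) : ℝ) := by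
  have hs0 : (0 : ℝ) < s := by exact_mod_cast (by omega : 0 < s)
  have hb0 : (0 : ℝ) < b := by exact_mod_cast hb
  have hc : ((s - b : ℕ) : ℝ) = (s : ℝ) - b := by
    rw [Nat.cast_sub hbs.le]
  have hc0 : (0 : ℝ) < (s : ℝ) - b := by
    have : (b : ℝ) < s := by exact_mod_cast hbs
    linarith
  obtain ⟨k, hk⟩ : ∃ k : ℤ, k = round (0 - (b : ℝ) / s) := ⟨_, rfl⟩
  have h0 : nd (0 - (b : ℝ) / s) = |(b : ℝ) + k * s| / s := by
    rw [nd, ← hk]
    have h1 : 0 - (b : ℝ) / s - k = -(((b : ℝ) + k * s) / s) := by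
      field_simp
      ring
    rw [h1, abs_neg, abs_div, abs_of_pos hs0]
  rw [h0, hc]
  rcases le_or_gt 0 k with h | h
  · have hk0 : (0 : ℝ) ≤ k := by exact_mod_cast h
    have h2 : (b : ℝ) ≤ |(b : ℝ) + k * s| := by
      rw [abs_of_nonneg (by positivity)]
      have : 0 ≤ (k : ℝ) * s := by positivity
      linarith
    refine ⟨div_pos (by linarith) hs0, ?_⟩
    rw [one_div, inv_div]
    have h3 : (s : ℝ) / |(b : ℝ) + k * s| ≤ s / b := div_le_div_of_nonneg_left hs0.le hb0 h2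
    have h4 : 0 ≤ (s : ℝ) / (s - b) := by positivity
    linarith
  · have hk0 : (k : ℝ) ≤ -1 := by exact_mod_cast (by omega : k ≤ -1)
    have h2 : (s : ℝ) - b ≤ |(b : ℝ) + k * s| := by
      rw [← abs_neg]
      refine le_trans ?_ (le_abs_self _)
      nlinarith
    refine ⟨div_pos (by linarith) hs0, ?_⟩
    rw [one_div, inv_div]
    have h3 : (s : ℝ) / |(b : ℝ) + k * s| ≤ s / (s - b) := div_le_div_of_nonneg_left hs0.le hc0 h2
    have h4 : 0 ≤ (s : ℝ) / b := by positivity
    linarith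

theorem gd_le (L x : ℝ) (hL : 0 ≤ L) (hx : 0 < nd x) : gd L x ≤ 1 / nd x := by
  rw [gd, div_le_div_iff₀ (by positivity) hx]
  linarith

theorem Psi0_le (s : ℕ) (hs : 2 ≤ s) (L : ℝ) (hL : 0 ≤ L) :
    Psi s L 0 ≤ 2 * s * (1 + Real.log s) := by
  have hs0 : (0 : ℝ) < s := by exact_mod_cast (by omega : 0 < s)
  have hharm : ∑ b ∈ Icc 1 (s - 1), (s : ℝ) / b ≤ s * (1 + Real.log s) := by
    have h1 := harmonic_le_one_add_log (s - 1)
    rw [harmonic_eq_sum_Icc] at h1
    push_cast at h1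
    have h2 : Real.log ((s - 1 : ℕ) : ℝ) ≤ Real.log s := by
      refine Real.log_le_log (by exact_mod_cast (by omega : 0 < s - 1)) ?_
      exact_mod_cast Nat.sub_le s 1
    simp only [div_eq_mul_inv]
    rw [← mul_sum]
    refine mul_le_mul_of_nonneg_left ?_ hs0.le
    refine h1.trans ?_
    linarith
  have hrefl : ∑ b ∈ Icc 1 (s - 1), (s : ℝ) / ((s - b : ℕ) : ℝ) = ∑ b ∈ Icc 1 (s - 1), (s : ℝ) / b := by
    refine Finset.sum_nbij' (fun b => s - b) (fun b => s - b) ?_ ?_ ?_ ?_ ?_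
    · intro b hb
      rw [mem_Icc] at hb ⊢
      omega
    · intro b hb
      rw [mem_Icc] at hb ⊢
      omega
    · intro b hb
      rw [mem_Icc] at hb
      omega
    · intro b hb
      rw [mem_Icc] at hb
      omega
    · intro b _
      rfl
  calc Psi s L 0 ≤ ∑ b ∈ (range s).filter (fun b => b.Coprime s),
        ((s : ℝ) / b + (s : ℝ) / ((s - b : ℕ) : ℝ)) := by
        refine sum_le_sum fun b hb => ?_
        rw [mem_filter, mem_range] at hb
        have hb1 : 1 ≤ b := by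
          rcases Nat.eq_zero_or_pos b with h | h
          · exfalso
            rw [h] at hb
            have := (Nat.coprime_zero_left s).1 hb.2
            omega
          · exact h
        obtain ⟨h1, h2⟩ := nd_ge s b hb1 hb.1
        exact (gd_le L _ hL h1).trans h2
    _ ≤ ∑ b ∈ Icc 1 (s - 1), ((s : ℝ) / b + (s : ℝ) / ((s - b : ℕ) : ℝ)) := by
        refine sum_le_sum_of_subset_of_nonneg ?_ fun b _ _ => by positivity
        intro b hb
        rw [mem_filter, mem_range] at hb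
        rw [mem_Icc]
        have hb1 : 1 ≤ b := by
          rcases Nat.eq_zero_or_pos b with h | h
          · exfalso
            rw [h] at hb
            have := (Nat.coprime_zero_left s).1 hb.2
            omega
          · exact h
        omega
    _ = 2 * ∑ b ∈ Icc 1 (s - 1), (s : ℝ) / b := by rw [sum_add_distrib, hrefl]; ring
    _ ≤ 2 * s * (1 + Real.log s) := by
        rw [mul_assoc]
        exact mul_le_mul_of_nonneg_left hharm (by norm_num)

/-- the divisor function with an exponential weight -/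
theorem tau_exp (Y : ℝ) (hY : 0 < Y) (M : ℕ) :
    ∑ s ∈ Icc 1 M, tau s * Real.exp (-((s : ℝ) / (2 * Y))) ≤ 2 * Y * Real.log (1 + 4 * Y) := by
  obtain ⟨E, hE⟩ : ∃ E, E = Real.exp (-(1 / (2 * Y))) := ⟨_, rfl⟩
  have hE0 : 0 < E := hE ▸ Real.exp_pos _
  have hE1 : E < 1 := by
    rw [hE, Real.exp_lt_one_iff]
    have : 0 < 1 / (2 * Y) := by positivity
    linarith
  have hpow : ∀ s : ℕ, Real.exp (-((s : ℝ) / (2 * Y))) = E ^ s := by
    intro s
    rw [hE, ← Real.exp_nat_mul]
    congr 1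
    ring
  have h1 : ∀ s ∈ Icc 1 M, tau s * Real.exp (-((s : ℝ) / (2 * Y))) ≤
      ∑ a ∈ Icc 1 M, if a ∣ s then E ^ s else 0 := by
    intro s hs
    rw [mem_Icc] at hs
    rw [hpow, ← sum_filter, sum_const, nsmul_eq_mul]
    refine mul_le_mul_of_nonneg_right ?_ (by positivity)
    rw [tau]
    have : s.divisors ⊆ (Icc 1 M).filter (fun a => a ∣ s) := by
      intro a ha
      rw [Nat.mem_divisors] at ha
      rw [mem_filter, mem_Icc]
      exact ⟨⟨Nat.pos_of_dvd_of_pos ha.1 (by omega), (Nat.le_of_dvd (by omega) ha.1).trans hs.2⟩, ha.1⟩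
    exact_mod_cast card_le_card this
  refine (sum_le_sum h1).trans ?_
  rw [sum_comm]
  -- one `a`
  have h2 : ∀ a ∈ Icc 1 M, ∑ s ∈ Icc 1 M, (if a ∣ s then E ^ s else 0) ≤
      2 * Y * (Real.exp (-(1 / (4 * Y))) ^ a / a) := by
    intro a ha
    rw [mem_Icc] at ha
    have ha0 : (0 : ℝ) < a := by exact_mod_cast ha.1
    have e1 : ∑ s ∈ Icc 1 M, (if a ∣ s then E ^ s else 0) ≤ ∑ b ∈ range M, (E ^ a) ^ (b + 1) := by
      rw [← sum_filter]
      have e2 : ∑ b ∈ range M, (E ^ a) ^ (b + 1) = ∑ s ∈ (range M).image (fun b => a * (b + 1)), E ^ s := by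
        rw [sum_image]
        · refine sum_congr rfl fun b _ => ?_
          rw [← pow_mul]
        · intro x _ y _ hxy
          have := Nat.eq_of_mul_eq_mul_left ha.1 hxy
          omega
      rw [e2]
      refine sum_le_sum_of_subset_of_nonneg ?_ fun _ _ _ => by positivity
      intro s hs
      rw [mem_filter, mem_Icc] at hs
      obtain ⟨c, hc⟩ := hs.2
      have hc0 : c ≠ 0 := by
        rintro rfl
        omega
      rw [mem_image]
      refine ⟨c - 1, ?_, ?_⟩
      · rw [mem_range]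
        have : c ≤ s := by
          rw [hc]
          exact Nat.le_mul_of_pos_left _ ha.1
        omega
      · rw [hc]
        congr 1
        omega
    have hEa1 : E ^ a < 1 := pow_lt_one₀ hE0.le hE1 (by omega)
    have hEa0 : 0 < E ^ a := by positivity
    have e3 : ∑ b ∈ range M, (E ^ a) ^ (b + 1) ≤ E ^ a / (1 - E ^ a) := by
      have e4 := (hasSum_geometric_of_lt_one hEa0.le hEa1).mul_left (E ^ a)
      have e5 := sum_le_hasSum (range M) (fun b _ => by positivity) e4
      calc ∑ b ∈ range M, (E ^ a) ^ (b + 1) = ∑ b ∈ range M, E ^ a * (E ^ a) ^ b := by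
            refine sum_congr rfl fun b _ => ?_
            rw [pow_succ]
            ring
        _ ≤ E ^ a * (1 - E ^ a)⁻¹ := e5
        _ = E ^ a / (1 - E ^ a) := by rw [div_eq_mul_inv]
    refine (e1.trans e3).trans ?_
    obtain ⟨u, hu⟩ : ∃ u, u = (a : ℝ) / (4 * Y) := ⟨_, rfl⟩
    have hu0 : 0 < u := by rw [hu]; positivity
    have e6 : E ^ a = Real.exp (-u) ^ 2 := by
      rw [← hpow, ← Real.exp_nat_mul, hu]
      congr 1
      push_cast
      field_simp
      ring
    have e7 : Real.exp (-(1 / (4 * Y))) ^ a = Real.exp (-u) := by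
      rw [← Real.exp_nat_mul, hu]
      congr 1
      ring
    have e8 : u ≤ Real.sinh u := Real.self_le_sinh_iff.2 hu0.le
    rw [Real.sinh_eq] at e8
    have e9 : 2 * Y * (Real.exp (-u) / a) = Real.exp (-u) / (2 * u) := by
      rw [hu]
      field_simp
      ring
    rw [e7, e9, e6]
    have hx : Real.exp u * Real.exp (-u) = 1 := by rw [← Real.exp_add]; simp
    have hx0 := Real.exp_pos (-u)
    have hEa : Real.exp (-u) ^ 2 < 1 := e6 ▸ hEa1
    rw [div_le_div_iff₀ (by linarith) (by positivity)]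
    have e10 : 2 * u * Real.exp (-u) ≤ 1 - Real.exp (-u) ^ 2 := by
      have : 2 * u * Real.exp (-u) ≤ (Real.exp u - Real.exp (-u)) * Real.exp (-u) :=
        mul_le_mul_of_nonneg_right (by linarith) hx0.le
      nlinarith
    nlinarith
  refine (sum_le_sum h2).trans ?_
  rw [← mul_sum]
  refine mul_le_mul_of_nonneg_left ?_ (by positivity)
  obtain ⟨F, hF⟩ : ∃ F, F = Real.exp (-(1 / (4 * Y))) := ⟨_, rfl⟩
  rw [← hF]
  have hF0 : 0 < F := hF ▸ Real.exp_pos _
  have hF1 : F * (1 + 4 * Y) ≤ 4 * Y := by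
    have e1 := Real.add_one_le_exp (1 / (4 * Y))
    have e2 : F * Real.exp (1 / (4 * Y)) = 1 := by rw [hF, ← Real.exp_add]; simp
    have e3 : F * (1 / (4 * Y) + 1) ≤ 1 := by
      calc F * (1 / (4 * Y) + 1) ≤ F * Real.exp (1 / (4 * Y)) := mul_le_mul_of_nonneg_left e1 hF0.le
        _ = 1 := e2
    have e4 : F * (1 + 4 * Y) = F * (1 / (4 * Y) + 1) * (4 * Y) := by
      field_simp
    rw [e4]
    nlinarith
  have hF2 : F < 1 := by
    by_contra h
    nlinarith
  have e5 := Real.hasSum_pow_div_log_of_abs_lt_one (x := F) (by rw [abs_of_pos hF0]; exact hF2)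
  have e6 := sum_le_hasSum (range M) (fun b _ => by positivity) e5
  have e7 : ∑ a ∈ Icc 1 M, F ^ a / (a : ℝ) = ∑ b ∈ range M, F ^ (b + 1) / ((b : ℝ) + 1) := by
    refine Finset.sum_nbij' (fun a => a - 1) (fun b => b + 1) ?_ ?_ ?_ ?_ ?_
    · intro a ha
      rw [mem_Icc] at ha
      rw [mem_range]
      omega
    · intro b hb
      rw [mem_range] at hb
      rw [mem_Icc]
      omega
    · intro a ha
      rw [mem_Icc] at ha
      omega
    · intro b hb
      omega
    · intro a ha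
      rw [mem_Icc] at ha
      have e8 : ((a - 1 : ℕ) : ℝ) + 1 = a := by
        have : ((a - 1 + 1 : ℕ) : ℝ) = (a : ℝ) := by
          congr 1
          omega
        rw [← this]
        push_cast
        ring
      have e9 : a - 1 + 1 = a := by omega
      rw [e8, e9]
  rw [e7]
  refine e6.trans ?_
  rw [← Real.log_inv]
  refine Real.log_le_log (by
    have : 0 < 1 - F := by linarith
    positivity) ?_
  rw [inv_le_comm₀ (by linarith) (by positivity), inv_le_iff_one_le_mul₀ (by positivity)]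
  linarith

/-- the inner sum -/
theorem inner_le (X : ℕ) (hX : 1 ≤ X) (Y : ℝ) (hY : 0 < Y) (hYX : Y ≤ 8 * X) (M : ℕ) (L : ℝ)
    (hL : 0 ≤ L) :
    ∑ s ∈ Icc 2 M, tau s / s * Real.exp (-((s : ℝ) / Y)) * Psi s L 0 ≤ 120 * Y * lg X ^ 2 := by
  have hX1 : (1 : ℝ) ≤ X := by exact_mod_cast hX
  have hlX : 0 ≤ Real.log X := Real.log_nonneg hX1
  have hl2 := Real.log_two_lt_d9
  have hlg : lg X = 1 + Real.log X := rfl
  have h8 : Real.log 8 ≤ 3 := by
    have : (8 : ℝ) = 2 ^ 3 := by norm_num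
    rw [this, Real.log_pow]
    push_cast
    linarith
  have h33 : Real.log (1 + 4 * Y) ≤ 5 * lg X := by
    have e1 : Real.log (1 + 4 * Y) ≤ Real.log (64 * X) := by
      refine Real.log_le_log (by positivity) ?_
      linarith
    have e2 : Real.log (64 * (X : ℝ)) = 6 * Real.log 2 + Real.log X := by
      rw [Real.log_mul (by norm_num) (by positivity)]
      have : (64 : ℝ) = 2 ^ 6 := by norm_num
      rw [this, Real.log_pow]
      push_cast
      ring
    rw [e2] at e1
    rw [hlg]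
    linarith
  have hw : ∀ s : ℕ, 1 ≤ s → (1 + Real.log s) * Real.exp (-((s : ℝ) / (2 * Y))) ≤ 6 * lg X := by
    intro s hs
    have hs0 : (0 : ℝ) < s := by exact_mod_cast hs
    obtain ⟨w, hw⟩ : ∃ w, w = (s : ℝ) / (2 * Y) := ⟨_, rfl⟩
    have hw0 : 0 < w := by rw [hw]; positivity
    rw [← hw]
    have e1 : Real.log s ≤ 2 * w + Real.log 8 + Real.log X := by
      have e2 : Real.log s = Real.log ((s : ℝ) / (8 * X)) + (Real.log 8 + Real.log X) := by
        rw [Real.log_div hs0.ne' (by positivity), Real.log_mul (by norm_num) (by positivity)]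
        ring
      have e3 : Real.log ((s : ℝ) / (8 * X)) ≤ (s : ℝ) / (8 * X) := by
        have := Real.log_le_sub_one_of_pos (show 0 < (s : ℝ) / (8 * X) by positivity)
        linarith
      have e4 : (s : ℝ) / (8 * X) ≤ 2 * w := by
        have : 2 * w = (s : ℝ) / Y := by rw [hw]; field_simp
        rw [this]
        exact div_le_div_of_nonneg_left hs0.le hY hYX
      linarith
    have e5 : Real.exp (-w) ≤ 1 := Real.exp_le_one_iff.2 (by linarith)
    have e6 : w * Real.exp (-w) ≤ 1 := by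
      have e7 := Real.add_one_le_exp w
      have e8 : Real.exp w * Real.exp (-w) = 1 := by rw [← Real.exp_add]; simp
      calc w * Real.exp (-w) ≤ Real.exp w * Real.exp (-w) :=
            mul_le_mul_of_nonneg_right (by linarith) (Real.exp_pos _).le
        _ = 1 := e8
    have e9 := Real.exp_pos (-w)
    calc (1 + Real.log s) * Real.exp (-w) ≤ (1 + (2 * w + Real.log 8 + Real.log X)) * Real.exp (-w) :=
          mul_le_mul_of_nonneg_right (by linarith) e9.le
      _ = 2 * (w * Real.exp (-w)) + (1 + Real.log 8 + Real.log X) * Real.exp (-w) := by ring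
      _ ≤ 2 * 1 + (1 + Real.log 8 + Real.log X) * 1 := by
          have e10 : 0 ≤ 1 + Real.log 8 + Real.log X := by
            have : 0 ≤ Real.log 8 := Real.log_nonneg (by norm_num)
            linarith
          exact add_le_add (mul_le_mul_of_nonneg_left e6 (by norm_num)) (mul_le_mul_of_nonneg_left e5 e10)
      _ ≤ 6 * lg X := by rw [hlg]; linarith
  have hlg0 : 0 ≤ lg X := by rw [hlg]; linarith
  calc ∑ s ∈ Icc 2 M, tau s / s * Real.exp (-((s : ℝ) / Y)) * Psi s L 0
      ≤ ∑ s ∈ Icc 2 M, 12 * lg X * (tau s * Real.exp (-((s : ℝ) / (2 * Y)))) := by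
        refine sum_le_sum fun s hs => ?_
        rw [mem_Icc] at hs
        have hs0 : (0 : ℝ) < s := by exact_mod_cast (by omega : 0 < s)
        have ht : 0 ≤ tau s := Nat.cast_nonneg _
        have e1 := Psi0_le s hs.1 L hL
        have e2 := hw s (by omega)
        have e3 : Real.exp (-((s : ℝ) / Y)) =
            Real.exp (-((s : ℝ) / (2 * Y))) * Real.exp (-((s : ℝ) / (2 * Y))) := by
          rw [← Real.exp_add]
          congr 1
          field_simp
          ring
        have e4 := Real.exp_pos (-((s : ℝ) / (2 * Y)))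
        calc tau s / s * Real.exp (-((s : ℝ) / Y)) * Psi s L 0
            ≤ tau s / s * Real.exp (-((s : ℝ) / Y)) * (2 * s * (1 + Real.log s)) :=
              mul_le_mul_of_nonneg_left e1 (by positivity)
          _ = 2 * (tau s * Real.exp (-((s : ℝ) / (2 * Y)))) *
              ((1 + Real.log s) * Real.exp (-((s : ℝ) / (2 * Y)))) := by
              rw [e3]
              field_simp
          _ ≤ 2 * (tau s * Real.exp (-((s : ℝ) / (2 * Y)))) * (6 * lg X) :=
              mul_le_mul_of_nonneg_left e2 (by positivity)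
          _ = 12 * lg X * (tau s * Real.exp (-((s : ℝ) / (2 * Y)))) := by ring
    _ ≤ ∑ s ∈ Icc 1 M, 12 * lg X * (tau s * Real.exp (-((s : ℝ) / (2 * Y)))) := by
        refine sum_le_sum_of_subset_of_nonneg (Icc_subset_Icc_left (by norm_num)) fun s _ _ => ?_
        have ht : 0 ≤ tau s := Nat.cast_nonneg _
        positivity
    _ = 12 * lg X * ∑ s ∈ Icc 1 M, tau s * Real.exp (-((s : ℝ) / (2 * Y))) := by rw [mul_sum]
    _ ≤ 12 * lg X * (2 * Y * (5 * lg X)) := by
        refine mul_le_mul_of_nonneg_left ((tau_exp Y hY M).trans ?_) (by positivity)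
        exact mul_le_mul_of_nonneg_left h33 (by positivity)
    _ = 120 * Y * lg X ^ 2 := by ring

theorem t_BD0' (hT : ∃ C : ℝ, 0 < C ∧ ∀ g : ℕ, 1 ≤ g → tau (g ^ 2) ≤ C * (g : ℝ) ^ (1 / 4 : ℝ)) :
    S_BD0 := by
  obtain ⟨C, hC, hT⟩ := hT
  have hs : Summable (fun n : ℕ => (n : ℝ) ^ (-(11 / 4) : ℝ)) := Real.summable_nat_rpow.2 (by norm_num)
  obtain ⟨S, hS⟩ : ∃ S, S = ∑' n : ℕ, (n : ℝ) ^ (-(11 / 4) : ℝ) := ⟨_, rfl⟩
  have hS0 : 0 ≤ S := by rw [hS]; exact tsum_nonneg fun n => by positivity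
  have hsum : ∀ M : ℕ, ∑ g ∈ Icc 1 M, tau (g ^ 2) / (g : ℝ) ^ 3 ≤ C * S := by
    intro M
    calc ∑ g ∈ Icc 1 M, tau (g ^ 2) / (g : ℝ) ^ 3 ≤ ∑ g ∈ Icc 1 M, C * (g : ℝ) ^ (-(11 / 4) : ℝ) := by
          refine sum_le_sum fun g hg => ?_
          rw [mem_Icc] at hg
          have hg0 : (0 : ℝ) < g := by exact_mod_cast hg.1
          have e1 : (g : ℝ) ^ (-(11 / 4) : ℝ) = (g : ℝ) ^ (1 / 4 : ℝ) / (g : ℝ) ^ 3 := by
            rw [← Real.rpow_natCast, ← Real.rpow_sub hg0]
            norm_num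
          rw [e1, ← mul_div_assoc]
          exact div_le_div_of_nonneg_right (hT g hg.1) (by positivity)
      _ = C * ∑ g ∈ Icc 1 M, (g : ℝ) ^ (-(11 / 4) : ℝ) := by rw [mul_sum]
      _ ≤ C * S := by
          rw [hS]
          exact mul_le_mul_of_nonneg_left (hs.sum_le_tsum _ fun n _ => by positivity) hC.le
  refine ⟨960 * (C * S) ^ 2 + 1, by positivity, fun a X M ha hX => ?_⟩
  have hX1 : (1 : ℝ) ≤ X := by exact_mod_cast hX
  have hlg0 : 0 ≤ lg X := by
    have : 0 ≤ Real.log X := Real.log_nonneg hX1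
    have hlg : lg X = 1 + Real.log X := rfl
    rw [hlg]
    linarith
  have hmain : ∀ g ∈ Icc 1 M, ∀ v ∈ Icc 1 M, tau (g ^ 2) / g * (tau (v ^ 2) / v) *
      ∑ s ∈ Icc 2 M, tau s / s * Real.exp (-((s : ℝ) * ((g : ℝ) * v) ^ 2 / (8 * X))) *
        Psi s ((X : ℝ) / (8 * (Nat.lcm (a ^ 2) g : ℕ)) + 1) 0 ≤
      960 * (X * lg X ^ 2) * (tau (g ^ 2) / (g : ℝ) ^ 3) * (tau (v ^ 2) / (v : ℝ) ^ 3) := by
    intro g hg v hv
    rw [mem_Icc] at hg hv
    have hg0 : (0 : ℝ) < g := by exact_mod_cast hg.1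
    have hv0 : (0 : ℝ) < v := by exact_mod_cast hv.1
    have hg1 : (1 : ℝ) ≤ g := by exact_mod_cast hg.1
    have hv1 : (1 : ℝ) ≤ v := by exact_mod_cast hv.1
    obtain ⟨Y, hY⟩ : ∃ Y, Y = 8 * (X : ℝ) / ((g : ℝ) * v) ^ 2 := ⟨_, rfl⟩
    have hY0 : 0 < Y := by rw [hY]; positivity
    have hYX : Y ≤ 8 * X := by
      rw [hY]
      refine div_le_self (by positivity) ?_
      have : (1 : ℝ) ≤ (g : ℝ) * v := by nlinarith
      nlinarith
    have hexp : ∀ s : ℕ, (s : ℝ) * ((g : ℝ) * v) ^ 2 / (8 * X) = (s : ℝ) / Y := by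
      intro s
      rw [hY]
      field_simp
    simp only [hexp]
    have e1 := inner_le X hX Y hY0 hYX M ((X : ℝ) / (8 * (Nat.lcm (a ^ 2) g : ℕ)) + 1) (by positivity)
    have ht1 : 0 ≤ tau (g ^ 2) := Nat.cast_nonneg _
    have ht2 : 0 ≤ tau (v ^ 2) := Nat.cast_nonneg _
    refine (mul_le_mul_of_nonneg_left e1 (by positivity)).trans (le_of_eq ?_)
    rw [hY]
    field_simp
    ring
  calc ∑ g ∈ Icc 1 M, ∑ v ∈ Icc 1 M, tau (g ^ 2) / g * (tau (v ^ 2) / v) *
      ∑ s ∈ Icc 2 M, tau s / s * Real.exp (-((s : ℝ) * ((g : ℝ) * v) ^ 2 / (8 * X))) *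
        Psi s ((X : ℝ) / (8 * (Nat.lcm (a ^ 2) g : ℕ)) + 1) 0
      ≤ ∑ g ∈ Icc 1 M, ∑ v ∈ Icc 1 M,
        960 * (X * lg X ^ 2) * (tau (g ^ 2) / (g : ℝ) ^ 3) * (tau (v ^ 2) / (v : ℝ) ^ 3) :=
        sum_le_sum fun g hg => sum_le_sum fun v hv => hmain g hg v hv
    _ = 960 * (X * lg X ^ 2) * ((∑ g ∈ Icc 1 M, tau (g ^ 2) / (g : ℝ) ^ 3) *
        (∑ g ∈ Icc 1 M, tau (g ^ 2) / (g : ℝ) ^ 3)) := by
        simp only [← mul_sum]
        rw [← sum_mul, ← mul_sum]
        ring
    _ ≤ 960 * (X * lg X ^ 2) * ((C * S) * (C * S)) := by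
        refine mul_le_mul_of_nonneg_left ?_ (by positivity)
        have e0 : 0 ≤ ∑ g ∈ Icc 1 M, tau (g ^ 2) / (g : ℝ) ^ 3 := sum_nonneg fun g _ => by
          have ht1 : 0 ≤ tau (g ^ 2) := Nat.cast_nonneg _
          positivity
        exact mul_le_mul (hsum M) (hsum M) e0 (by positivity)
    _ = 960 * (C * S) ^ 2 * (X * lg X ^ 2) := by ring
    _ ≤ (960 * (C * S) ^ 2 + 1) * (X * lg X ^ 2) := by
        refine mul_le_mul_of_nonneg_right ?_ (by positivity)
        linarith

theorem t_BD0 : S_BD0 := t_BD0' Pool.Agent.H28.BR3.tauS.2.2.2.2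

end

end Pool.Agent.H99.BR4
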