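import Pool.Agent.H28.BR.Stm5

set_option autoImplicit false

/-! Project BR4, module DGS (helper99): the diagonal of the square, `n = g x²`, `m = g y²`. -/

namespace Pool.Agent.H99.BR4

open Finset Filter Topology MeasureTheory Pool.Agent.H306R2.RZ Pool.Agent.H306R2.RG
  Pool.Agent.Q122.FM Pool.Agent.H28.BR4

noncomputable section

/-- one term of `EA` -/
def Tt (p : Par) (d : ℕ) (z : ℝ) (i n : ℕ) : ℝ :=
  p.η ^ i * js (p.e * (d : ℤ)) n / Real.sqrt ((2 : ℝ) ^ i * n) * IG p.a (((2 : ℝ) ^ i * n) ^ 2 * z)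

/-- the sum over `i` -/
def At (p : Par) (N d : ℕ) (z : ℝ) (n : ℕ) : ℝ := ∑ i ∈ range N, Tt p d z i n

theorem Dg_eq (p : Par) (N d : ℕ) (z : ℝ) :
    Dg p N d z = ∑ n ∈ (Icc 1 N).filter (fun n => Odd n),
      ∑ m ∈ (Icc 1 N).filter (fun m => Odd m ∧ IsSquare (n * m)), At p N d z n * At p N d z m := by
  have h0 : Dg p N d z = ∑ i ∈ range N, ∑ n ∈ (Icc 1 N).filter (fun n => Odd n),
    ∑ j ∈ range N, ∑ m ∈ (Icc 1 N).filter (fun m => Odd m ∧ IsSquare (n * m)),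
      Tt p d z i n * Tt p d z j m := rfl
  rw [h0, Finset.sum_comm]
  refine sum_congr rfl fun n _ => ?_
  calc ∑ i ∈ range N, ∑ j ∈ range N, ∑ m ∈ (Icc 1 N).filter (fun m => Odd m ∧ IsSquare (n * m)),
        Tt p d z i n * Tt p d z j m
      = ∑ i ∈ range N, Tt p d z i n * ∑ j ∈ range N,
          ∑ m ∈ (Icc 1 N).filter (fun m => Odd m ∧ IsSquare (n * m)), Tt p d z j m := by
        refine sum_congr rfl fun i _ => ?_
        rw [mul_sum]
        refine sum_congr rfl fun j _ => ?_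
        rw [mul_sum]
    _ = At p N d z n * ∑ m ∈ (Icc 1 N).filter (fun m => Odd m ∧ IsSquare (n * m)),
          ∑ j ∈ range N, Tt p d z j m := by
        rw [← sum_mul, sum_comm]
        rfl
    _ = _ := by
        rw [mul_sum]
        rfl

theorem odd_decomp (N : ℕ) (f : ℕ → ℝ) :
    ∑ n ∈ (Icc 1 N).filter (fun n => Odd n), f n =
      ∑ s ∈ (Icc 1 N).filter (fun s => Odd s ∧ Squarefree s),
        ∑ u ∈ (Icc 1 N).filter (fun u => Odd u ∧ s * u ^ 2 ≤ N), f (s * u ^ 2) := by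
  rw [Finset.sum_sigma']
  symm
  apply Finset.sum_nbij (fun x : (Σ _ : ℕ, ℕ) => x.1 * x.2 ^ 2)
  · rintro ⟨s, u⟩ hx
    simp only [mem_sigma, mem_filter, mem_Icc] at hx ⊢
    obtain ⟨⟨⟨hs1, hsN⟩, hso, hss⟩, ⟨hu1, huN⟩, huo, hle⟩ := hx
    exact ⟨⟨Nat.mul_pos hs1 (pow_pos hu1 2), hle⟩, hso.mul (huo.pow)⟩
  · rintro ⟨s, u⟩ hx ⟨s', u'⟩ hx' h
    simp only [mem_coe, mem_sigma, mem_filter, mem_Icc] at hx hx' h
    obtain ⟨a, b⟩ := sqf_unique hx.1.2.2 hx'.1.2.2 (by omega) (by omega) h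
    subst a; subst b; rfl
  · intro n hn
    simp only [mem_coe, mem_filter, mem_Icc] at hn
    obtain ⟨⟨hn1, hnN⟩, hno⟩ := hn
    obtain ⟨s, u, hus, hs⟩ := Nat.sq_mul_squarefree n
    have hus' : s * u ^ 2 = n := by rw [← hus]; ring
    have hu0 : u ≠ 0 := by
      rintro rfl
      simp at hus'; omega
    have hs0 : s ≠ 0 := hs.ne_zero
    have ho : Odd (s * u ^ 2) := hus' ▸ hno
    obtain ⟨hso, huo⟩ := Nat.odd_mul.1 ho
    have huo' : Odd u := by
      rw [Nat.odd_pow_iff (by norm_num)] at huo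
      exact huo
    refine ⟨⟨s, u⟩, ?_, hus'⟩
    simp only [coe_sigma, Set.mem_sigma_iff, mem_coe, mem_filter, mem_Icc]
    have hsn : s ≤ n := by
      rw [← hus']
      exact Nat.le_mul_of_pos_right _ (pow_pos (Nat.pos_of_ne_zero hu0) 2)
    have hun : u ≤ n := by
      rw [← hus']
      calc u ≤ u ^ 2 := Nat.le_self_pow (by norm_num) u
        _ ≤ s * u ^ 2 := Nat.le_mul_of_pos_left _ (Nat.pos_of_ne_zero hs0)
    exact ⟨⟨⟨by omega, by omega⟩, hso, hs⟩, ⟨by omega, by omega⟩, huo', by omega⟩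
  · intro x _
    rfl

theorem sq_decomp (N g x : ℕ) (hg : Squarefree g) (hgo : Odd g) (hx : x ≠ 0) (f : ℕ → ℝ) :
    ∑ m ∈ (Icc 1 N).filter (fun m => Odd m ∧ IsSquare (g * x ^ 2 * m)), f m =
      ∑ u ∈ (Icc 1 N).filter (fun u => Odd u ∧ g * u ^ 2 ≤ N), f (g * u ^ 2) := by
  have hg0 : 0 < g := Nat.pos_of_ne_zero hg.ne_zero
  symm
  apply Finset.sum_nbij (fun u : ℕ => g * u ^ 2)
  · intro u hu
    simp only [mem_filter, mem_Icc] at hu ⊢
    obtain ⟨⟨hu1, huN⟩, huo, hle⟩ := hu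
    exact ⟨⟨Nat.mul_pos hg0 (pow_pos hu1 2), hle⟩, hgo.mul huo.pow, ⟨g * x * u, by ring⟩⟩
  · intro u _ v _ h
    have h3 : u ^ 2 = v ^ 2 := Nat.eq_of_mul_eq_mul_left hg0 h
    exact Nat.pow_left_injective (n := 2) (by norm_num) h3
  · intro n hn
    simp only [mem_coe, mem_filter, mem_Icc] at hn
    obtain ⟨⟨hn1, hnN⟩, hno, t, ht⟩ := hn
    obtain ⟨s, u, hus, hs⟩ := Nat.sq_mul_squarefree n
    have hus' : s * u ^ 2 = n := by rw [← hus]; ring
    have hu0 : u ≠ 0 := by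
      rintro rfl
      simp at hus'; omega
    have hs0 : s ≠ 0 := hs.ne_zero
    have ht0 : t ≠ 0 := by
      rintro rfl
      have h1 : 0 < g * x ^ 2 * n :=
        Nat.mul_pos (Nat.mul_pos hg0 (pow_pos (Nat.pos_of_ne_zero hx) 2)) hn1
      rw [ht] at h1
      simp at h1
    have hgs : g = s := by
      refine (sqf_unique hg hs (u1 := s * x * u) (u2 := t)
        (mul_ne_zero (mul_ne_zero hs0 hx) hu0) ht0 ?_).1
      have h1 : g * (s * x * u) ^ 2 = s * (g * x ^ 2 * (s * u ^ 2)) := by ring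
      rw [h1, hus', ht]
      ring
    subst hgs
    have ho : Odd (g * u ^ 2) := hus' ▸ hno
    have huo := (Nat.odd_mul.1 ho).2
    rw [Nat.odd_pow_iff (by norm_num)] at huo
    refine ⟨u, ?_, hus'⟩
    simp only [mem_coe, mem_filter, mem_Icc]
    have hun : u ≤ n := by
      rw [← hus']
      calc u ≤ u ^ 2 := Nat.le_self_pow (by norm_num) u
        _ ≤ g * u ^ 2 := Nat.le_mul_of_pos_left _ hg0
    exact ⟨⟨by omega, by omega⟩, huo, by omega⟩
  · intro x _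
    rfl

theorem js_self {e : ℤ} (he : e = 1 ∨ e = -1 ∨ e = 2 ∨ e = -2) (d g : ℕ) (hg : Odd g) :
    js (e * (d : ℤ)) g ^ 2 = if g.Coprime d then 1 else 0 := by
  have h := js_sq he d 1 g hg one_ne_zero
  have hg0 : g ≠ 0 := by rintro rfl; simp at hg
  have : NeZero g := ⟨hg0⟩
  have h1 : js (e * (d : ℤ)) 1 = 1 := by
    unfold js
    rw [jacobiSym.one_right]
    norm_num
  have h2 : js (e * (d : ℤ)) (1 * g ^ 2) = js (e * (d : ℤ)) g ^ 2 := by
    unfold js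
    rw [one_mul, jacobiSym.pow_right]
    push_cast
    rfl
  rw [← h2, h, h1, one_mul]

theorem inner (p : Par) (hp : p.e = 1 ∨ p.e = -1 ∨ p.e = 2 ∨ p.e = -2) (N d : ℕ) (z : ℝ) (g : ℕ)
    (hg : 0 < g) :
    ∑ u ∈ (Icc 1 N).filter (fun u => Odd u ∧ g * u ^ 2 ≤ N), At p N d z (g * u ^ 2) =
      js (p.e * (d : ℤ)) g / Real.sqrt g * II p N d g z := by
  have hgr : (0 : ℝ) < g := by exact_mod_cast hg
  unfold At II
  rw [sum_comm, mul_sum]
  refine sum_congr rfl fun i _ => ?_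
  rw [mul_sum]
  have hsub : (Icc 1 N).filter (fun x => Odd x ∧ x.Coprime d ∧ g * x ^ 2 ≤ N) ⊆
      (Icc 1 N).filter (fun u => Odd u ∧ g * u ^ 2 ≤ N) := by
    intro u hu
    simp only [mem_filter] at hu ⊢
    exact ⟨hu.1, hu.2.1, hu.2.2.2⟩
  rw [← Finset.sum_subset hsub]
  · refine sum_congr rfl fun u hu => ?_
    simp only [mem_filter, mem_Icc] at hu
    have hu0 : (0 : ℝ) < u := by exact_mod_cast hu.1.1
    unfold Tt
    rw [js_sq hp d g u hu.2.1 hg.ne', if_pos hu.2.2.1, mul_one]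
    have h1 : Real.sqrt ((2 : ℝ) ^ i * ((g * u ^ 2 : ℕ) : ℝ)) =
        Real.sqrt ((2 : ℝ) ^ i) * (Real.sqrt g * u) := by
      push_cast
      rw [Real.sqrt_mul (by positivity), Real.sqrt_mul hgr.le, Real.sqrt_sq hu0.le]
    have h2 : Real.sqrt ((2 : ℝ) ^ i) ≠ 0 := (Real.sqrt_pos.2 (by positivity)).ne'
    have h3 : Real.sqrt (g : ℝ) ≠ 0 := (Real.sqrt_pos.2 hgr).ne'
    rw [h1]
    push_cast
    field_simp
  · intro u hu hu'
    simp only [mem_filter, mem_Icc] at hu hu'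
    unfold Tt
    rw [js_sq hp d g u hu.2.1 hg.ne', if_neg, mul_zero, mul_zero, zero_div, zero_mul]
    intro hc
    exact hu' ⟨hu.1, hu.2.1, hc, hu.2.2⟩

theorem t_DGS : S_DGS := by
  intro p hp N d z _
  rw [Dg_eq, odd_decomp]
  have h1 : ∀ g ∈ (Icc 1 N).filter (fun s => Odd s ∧ Squarefree s),
      ∑ u ∈ (Icc 1 N).filter (fun u => Odd u ∧ g * u ^ 2 ≤ N),
        ∑ m ∈ (Icc 1 N).filter (fun m => Odd m ∧ IsSquare (g * u ^ 2 * m)),
          At p N d z (g * u ^ 2) * At p N d z m =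
      (if g.Coprime d then 1 else 0) * (1 / (g : ℝ) * II p N d g z ^ 2) := by
    intro g hg
    simp only [mem_filter, mem_Icc] at hg
    obtain ⟨⟨hg1, hgN⟩, hgo, hgs⟩ := hg
    have h2 : ∀ u ∈ (Icc 1 N).filter (fun u => Odd u ∧ g * u ^ 2 ≤ N),
        ∑ m ∈ (Icc 1 N).filter (fun m => Odd m ∧ IsSquare (g * u ^ 2 * m)),
          At p N d z (g * u ^ 2) * At p N d z m =
        At p N d z (g * u ^ 2) * ∑ v ∈ (Icc 1 N).filter (fun v => Odd v ∧ g * v ^ 2 ≤ N),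
          At p N d z (g * v ^ 2) := by
      intro u hu
      simp only [mem_filter, mem_Icc] at hu
      rw [← mul_sum, sq_decomp N g u hgs hgo (by omega)]
    rw [sum_congr rfl h2, ← sum_mul, inner p hp.1 N d z g hg1, ← js_self hp.1 d g hgo]
    have h3 : Real.sqrt (g : ℝ) ^ 2 = g := Real.sq_sqrt (Nat.cast_nonneg g)
    have h4 : Real.sqrt (g : ℝ) ≠ 0 := by
      have : (0 : ℝ) < g := by exact_mod_cast hg1
      exact (Real.sqrt_pos.2 this).ne'
    have h5 : (1 : ℝ) / (g : ℝ) = (1 / Real.sqrt (g : ℝ)) ^ 2 := by rw [div_pow, one_pow, h3]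
    rw [h5]
    ring
  rw [sum_congr rfl h1]
  have hsub : (Icc 1 N).filter (fun g => Odd g ∧ Squarefree g ∧ g.Coprime d) ⊆
      (Icc 1 N).filter (fun s => Odd s ∧ Squarefree s) := by
    intro u hu
    simp only [mem_filter] at hu ⊢
    exact ⟨hu.1, hu.2.1, hu.2.2.1⟩
  rw [← Finset.sum_subset hsub]
  · refine sum_congr rfl fun g hg => ?_
    simp only [mem_filter] at hg
    rw [if_pos hg.2.2.2, one_mul]
  · intro g hg hg'
    simp only [mem_filter] at hg hg'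
    rw [if_neg, zero_mul]
    intro hc
    exact hg' ⟨hg.1, hg.2.1, hg.2.2, hc⟩

end

end Pool.Agent.H99.BR4
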